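import Pool.Agent.helper95.RF.SpecC

set_option autoImplicit false

namespace Pool.Agent.RF

open Finset NumberField Pool.Agent.helper3.FT

theorem CTR_norm (z : OO) : z.norm = z.re ^ 2 + z.re * z.im - z.im ^ 2 := by
  rw [QuadraticAlgebra.norm_def]
  ring

theorem CTR_mulstar (z : OO) : z * star z = ((z.norm : ℤ) : OO) := by
  rw [← QuadraticAlgebra.algebraMap_norm_eq_mul_star, eq_intCast]

theorem CTR_re5 : QuadraticAlgebra.re (5 : OO) = 5 := rfl

theorem CTR_im5 : QuadraticAlgebra.im (5 : OO) = 0 := rfl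

theorem CTR_sub (z : OO) : (z - star z) ^ 2 = ((5 * z.im ^ 2 : ℤ) : OO) := by
  have h : z - star z = (⟨-z.im, 2 * z.im⟩ : OO) := by
    ext
    · simp
    · simp
      ring
  rw [h]
  ext
  · simp [pow_two, CTR_re5, CTR_im5]
    ring
  · simp [pow_two, CTR_re5, CTR_im5]
    try ring

theorem CTR_r5 : r5 * r5 = (5 : OO) := by
  ext
  · simp [r5, CTR_re5]
  · simp [r5, CTR_im5]

theorem CTR_castdvd {a b : ℤ} (h : ((a : ℤ) : OO) ∣ ((b : ℤ) : OO)) : a ∣ b := by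
  obtain ⟨c, hc⟩ := h
  refine ⟨c.re, ?_⟩
  have := congrArg QuadraticAlgebra.re hc
  simpa using this

theorem CTR_im {k : OO} (hp : k.norm.natAbs.Prime) : ¬ k.norm ∣ k.im := by
  intro h
  have hpr : Prime k.norm := Int.prime_iff_natAbs_prime.mpr hp
  have h2 : k.norm ∣ k.re ^ 2 := by
    have e : k.re ^ 2 = k.norm - k.im * (k.re - k.im) := by
      rw [CTR_norm]
      ring
    rw [e]
    exact dvd_sub dvd_rfl (h.mul_right _)
  have h3 : k.norm ∣ k.re := hpr.dvd_of_dvd_pow h2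
  obtain ⟨a, ha⟩ := h
  obtain ⟨b, hb⟩ := h3
  have h4 : k.norm * 1 = k.norm * (k.norm * (b ^ 2 + b * a - a ^ 2)) := by
    have e := CTR_norm k
    calc k.norm * 1 = k.re ^ 2 + k.re * k.im - k.im ^ 2 := by rw [mul_one, ← e]
      _ = (k.norm * b) ^ 2 + (k.norm * b) * (k.norm * a) - (k.norm * a) ^ 2 := by rw [← ha, ← hb]
      _ = _ := by ring
  have h5 := mul_left_cancel₀ hpr.ne_zero h4
  exact hpr.not_isUnit (IsUnit.of_mul_eq_one _ h5.symm)

theorem CTR_cop {k : OO} {E : ℕ} (hp : k.norm.natAbs.Prime) (hc : Nat.Coprime k.norm.natAbs (10 * E)) :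
    IsCoprime k (star k) ∧ IsCoprime k r5 ∧ IsCoprime k.norm (E : ℤ) := by
  have hpr : Prime k.norm := Int.prime_iff_natAbs_prime.mpr hp
  have hc10 : Nat.Coprime k.norm.natAbs 10 := Nat.Coprime.coprime_mul_right_right hc
  have hcE : Nat.Coprime k.norm.natAbs E := Nat.Coprime.coprime_mul_left_right hc
  have hc5 : Nat.Coprime k.norm.natAbs 5 := Nat.Coprime.coprime_dvd_right (by norm_num) hc10
  have h5 : IsCoprime k.norm 5 := Int.isCoprime_iff_gcd_eq_one.mpr hc5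
  have hE : IsCoprime k.norm (E : ℤ) := Int.isCoprime_iff_gcd_eq_one.mpr hcE
  have him : IsCoprime k.norm k.im := (Prime.coprime_iff_not_dvd hpr).mpr (CTR_im hp)
  have h1 : IsCoprime k.norm (5 * k.im ^ 2) := h5.mul_right (him.pow_right)
  have h2 : IsCoprime (k * star k) ((k - star k) ^ 2) := by
    have := h1.map (Int.castRingHom OO)
    rw [CTR_mulstar, CTR_sub]
    exact this
  have h3 : IsCoprime k (k - star k) := (IsCoprime.pow_right_iff (by norm_num)).mp h2.of_mul_left_left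
  have h4 : IsCoprime (k * star k) (r5 * r5) := by
    have := h5.map (Int.castRingHom OO)
    rw [CTR_mulstar, CTR_r5]
    simpa using this
  refine ⟨?_, h4.of_mul_left_left.of_mul_right_left, hE⟩
  obtain ⟨a, b, h⟩ := h3
  exact ⟨a + b, -b, by linear_combination h⟩

theorem CTR_dvd {k : OO} {E : ℕ} (hp : k.norm.natAbs.Prime) (hc : Nat.Coprime k.norm.natAbs (10 * E))
    {M : OO} {s s₁ : ℤ} (h : CG k M s) (h' : CG k M s₁) : k.norm ^ 3 ∣ s - s₁ := by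
  obtain ⟨c1, c2, _⟩ := CTR_cop hp hc
  have h1 : k ^ 3 ∣ star k ^ 2 * (r5 * ((s - s₁ : ℤ) : OO)) := by
    have := dvd_sub h h'
    have e : star k ^ 2 * (r5 * (s : OO) - (M.norm : OO)) - 2 * ph * k ^ 2 * M ^ 2 -
        (star k ^ 2 * (r5 * (s₁ : OO) - (M.norm : OO)) - 2 * ph * k ^ 2 * M ^ 2) =
        star k ^ 2 * (r5 * ((s - s₁ : ℤ) : OO)) := by
      push_cast
      ring
    rwa [e] at this
  have h2 : k ^ 3 ∣ ((s - s₁ : ℤ) : OO) :=
    (c2.pow_left).dvd_of_dvd_mul_left ((c1.pow).dvd_of_dvd_mul_left h1)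
  have h3 : star k ^ 3 ∣ ((s - s₁ : ℤ) : OO) := by
    obtain ⟨c, hc⟩ := h2
    refine ⟨star c, ?_⟩
    have := congrArg star hc
    rw [star_mul, star_pow, star_intCast] at this
    rw [this]
    ring
  have h4 : k ^ 3 * star k ^ 3 ∣ ((s - s₁ : ℤ) : OO) := (c1.pow).mul_dvd h2 h3
  rw [← mul_pow, CTR_mulstar] at h4
  apply CTR_castdvd
  rw [Int.cast_pow]
  exact h4

theorem CTR_root {k : OO} (hp : k.norm.natAbs.Prime) : ∃ r : ℤ, k.norm ∣ r ^ 2 - r - 1 := by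
  have hpr : Prime k.norm := Int.prime_iff_natAbs_prime.mpr hp
  have him : IsCoprime k.norm k.im := (Prime.coprime_iff_not_dvd hpr).mpr (CTR_im hp)
  obtain ⟨v, u, h⟩ := him
  refine ⟨-(k.re * u), ⟨u ^ 2 + u * k.re * v - 2 * u * k.im * v - v ^ 2 * k.norm, ?_⟩⟩
  have e := CTR_norm k
  have h1 : u * k.im = 1 - v * k.norm := by linarith
  have h2 : k.norm * u ^ 2 = u ^ 2 * k.re ^ 2 + u * k.re * (u * k.im) - (u * k.im) ^ 2 := by
    calc k.norm * u ^ 2 = (k.re ^ 2 + k.re * k.im - k.im ^ 2) * u ^ 2 := by rw [← e]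
      _ = _ := by ring
  have h3 : k.norm * (u ^ 2 + u * k.re * v - 2 * u * k.im * v - v ^ 2 * k.norm) =
      k.norm * u ^ 2 + k.norm * (u * k.re * v) - 2 * (u * k.im) * v * k.norm - v ^ 2 * k.norm ^ 2 := by
    ring
  rw [h3, h2, h1]
  ring

theorem CTR_split {k M : OO} (hp : k.norm.natAbs.Prime) {r : ℤ} (hr : k.norm ∣ r ^ 2 - r - 1)
    (h : k.norm ∣ M.norm) : k.norm ∣ M.re + r * M.im ∨ k.norm ∣ M.re + (1 - r) * M.im := by
  have hpr : Prime k.norm := Int.prime_iff_natAbs_prime.mpr hp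
  apply hpr.dvd_or_dvd
  have e : (M.re + r * M.im) * (M.re + (1 - r) * M.im) = M.norm - (r ^ 2 - r - 1) * M.im ^ 2 := by
    rw [CTR_norm M]
    ring
  rw [e]
  exact dvd_sub h (hr.mul_right _)

theorem CTR_cls (q : ℕ) (hq : 0 < q) (v : ℤ) (L : ℕ) :
    (((Ico 0 (L : ℤ)).filter (fun x => (q : ℤ) ∣ x - v)).card : ℝ) ≤ (L : ℝ) / q + 1 := by
  have hq' : (0 : ℤ) < q := by exact_mod_cast hq
  have h := Int.Ico_filter_modEq_card (0 : ℤ) (L : ℤ) hq' v
  have e : ((Ico 0 (L : ℤ)).filter (fun x => (q : ℤ) ∣ x - v)) =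
      (Ico 0 (L : ℤ)).filter (fun x => x ≡ v [ZMOD (q : ℤ)]) := by
    apply Finset.filter_congr
    intro x _
    rw [Int.modEq_iff_dvd, ← dvd_neg, neg_sub]
  rw [e]
  have hqQ : (0 : ℚ) < (q : ℚ) := by exact_mod_cast hq
  have h1 : ((((Ico 0 (L : ℤ)).filter (fun x => x ≡ v [ZMOD (q : ℤ)])).card : ℤ) : ℚ) ≤ (L : ℚ) / q + 1 := by
    rw [h]
    push_cast
    apply max_le
    · have a1 := Int.ceil_lt_add_one (((L : ℚ) - v) / (q : ℚ))
      have a2 := Int.le_ceil (((0 : ℚ) - v) / (q : ℚ))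
      have a3 : ((L : ℚ) - v) / q - ((0 : ℚ) - v) / q = (L : ℚ) / q := by
        field_simp
        ring
      linarith
    · positivity
  have h2 : ((((Ico 0 (L : ℤ)).filter (fun x => x ≡ v [ZMOD (q : ℤ)])).card : ℚ) : ℝ) ≤
      (((L : ℚ) / q + 1 : ℚ) : ℝ) := by
    apply Rat.cast_le.mpr
    simpa using h1
  push_cast at h2
  exact h2

/-- the number of pairs in one class -/
theorem CTR_pairs (q : ℕ) (hq : 0 < q) (E L : ℕ) (hE : IsCoprime (q : ℤ) (E : ℤ)) (m₀ n₀ c : ℤ) :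
    ((((Ico 0 (L : ℤ)) ×ˢ (Ico 0 (L : ℤ))).filter
      (fun t : ℤ × ℤ => (q : ℤ) ∣ (m₀ + E * t.1) + c * (n₀ + E * t.2))).card : ℝ) ≤
      L * ((L : ℝ) / q + 1) := by
  obtain ⟨w, E', hw⟩ := hE
  have hpos : (0 : ℝ) ≤ (L : ℝ) / q + 1 := by positivity
  have key : ∀ a ∈ ((((Ico 0 (L : ℤ)) ×ˢ (Ico 0 (L : ℤ))).filter
      (fun t : ℤ × ℤ => (q : ℤ) ∣ (m₀ + E * t.1) + c * (n₀ + E * t.2))).image Prod.snd),
      ((((Ico 0 (L : ℤ)) ×ˢ (Ico 0 (L : ℤ))).filter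
      (fun t : ℤ × ℤ => (q : ℤ) ∣ (m₀ + E * t.1) + c * (n₀ + E * t.2))).filter (fun t => t.2 = a)).card ≤
        ⌊(L : ℝ) / q + 1⌋₊ := by
    intro y _
    apply Nat.le_floor
    refine le_trans ?_ (CTR_cls q hq (-(E' * (m₀ + c * (n₀ + E * y)))) L)
    apply Nat.cast_le.mpr
    apply Finset.card_le_card_of_injOn Prod.fst
    · intro t ht
      simp only [coe_filter, mem_filter, mem_product, Set.mem_ofPred_eq] at ht
      simp only [coe_filter, Set.mem_ofPred_eq]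
      refine ⟨ht.1.1.1, ?_⟩
      obtain ⟨⟨_, hd⟩, hy⟩ := ht
      rw [hy] at hd
      have e : t.1 - -(E' * (m₀ + c * (n₀ + E * y))) =
          E' * ((m₀ + E * t.1) + c * (n₀ + E * y)) + (w * t.1) * q := by
        have h1 : t.1 = t.1 * (w * q + E' * E) := by rw [hw, mul_one]
        linear_combination h1
      rw [e]
      exact dvd_add (hd.mul_left _) (dvd_mul_left _ _)
    · intro t ht t' ht' h
      simp only [coe_filter, Set.mem_ofPred_eq] at ht ht'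
      exact Prod.ext h (ht.2.trans ht'.2.symm)
  have h1 := Finset.card_le_mul_card_image _ _ key
  have h2 : ((((Ico 0 (L : ℤ)) ×ˢ (Ico 0 (L : ℤ))).filter
      (fun t : ℤ × ℤ => (q : ℤ) ∣ (m₀ + E * t.1) + c * (n₀ + E * t.2))).image Prod.snd).card ≤ L := by
    have h3 : ((((Ico 0 (L : ℤ)) ×ˢ (Ico 0 (L : ℤ))).filter
      (fun t : ℤ × ℤ => (q : ℤ) ∣ (m₀ + E * t.1) + c * (n₀ + E * t.2))).image Prod.snd) ⊆ Ico 0 (L : ℤ) := by
      intro y hy
      rw [mem_image] at hy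
      obtain ⟨t, ht, rfl⟩ := hy
      rw [mem_filter, mem_product] at ht
      exact ht.1.2
    have := Finset.card_le_card h3
    simpa using this
  calc ((((Ico 0 (L : ℤ)) ×ˢ (Ico 0 (L : ℤ))).filter
      (fun t : ℤ × ℤ => (q : ℤ) ∣ (m₀ + E * t.1) + c * (n₀ + E * t.2))).card : ℝ)
      ≤ ((⌊(L : ℝ) / q + 1⌋₊ * ((((Ico 0 (L : ℤ)) ×ˢ (Ico 0 (L : ℤ))).filter
      (fun t : ℤ × ℤ => (q : ℤ) ∣ (m₀ + E * t.1) + c * (n₀ + E * t.2))).image Prod.snd).card : ℕ) : ℝ) := by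
        exact_mod_cast h1
    _ = (⌊(L : ℝ) / q + 1⌋₊ : ℝ) * (((((Ico 0 (L : ℤ)) ×ˢ (Ico 0 (L : ℤ))).filter
      (fun t : ℤ × ℤ => (q : ℤ) ∣ (m₀ + E * t.1) + c * (n₀ + E * t.2))).image Prod.snd).card : ℝ) := by
        push_cast
        rfl
    _ ≤ ((L : ℝ) / q + 1) * (L : ℝ) := by
        apply mul_le_mul (Nat.floor_le hpos) (by exact_mod_cast h2) (by positivity) hpos
    _ = _ := by ring

theorem CTR (h1 : CTH_stmt) : CTR_stmt := by
  have _ := h1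
  intro E L V k M₀ s₀ z₀ hp hc hV
  classical
  have hpr : Prime k.norm := Int.prime_iff_natAbs_prime.mpr hp
  have hq0 : 0 < k.norm.natAbs := hp.pos
  obtain ⟨_, _, hE⟩ := CTR_cop hp hc
  have hE' : IsCoprime ((k.norm.natAbs : ℕ) : ℤ) (E : ℤ) := by
    exact Nat.isCoprime_iff_coprime.mpr (Nat.Coprime.coprime_mul_left_right hc)
  have hdv : ∀ x : ℤ, k.norm ∣ x ↔ ((k.norm.natAbs : ℕ) : ℤ) ∣ x := fun x => Int.natAbs_dvd.symm
  obtain ⟨r, hr⟩ := CTR_root hp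
  set S₁ := ((Ico 0 (L : ℤ)) ×ˢ (Ico 0 (L : ℤ))).filter
      (fun t : ℤ × ℤ => ((k.norm.natAbs : ℕ) : ℤ) ∣ (M₀.re + E * t.1) + r * (M₀.im + E * t.2)) with hS₁
  set S₂ := ((Ico 0 (L : ℤ)) ×ˢ (Ico 0 (L : ℤ))).filter
      (fun t : ℤ × ℤ => ((k.norm.natAbs : ℕ) : ℤ) ∣ (M₀.re + E * t.1) + (1 - r) * (M₀.im + E * t.2)) with hS₂
  have b₁ := CTR_pairs k.norm.natAbs hq0 E L hE' M₀.re M₀.im r
  have b₂ := CTR_pairs k.norm.natAbs hq0 E L hE' M₀.re M₀.im (1 - r)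
  rw [← hS₁] at b₁
  rw [← hS₂] at b₂
  have hre : ∀ t : ℤ × ℤ × ℤ, (pM E M₀ t).re = M₀.re + E * t.1 := by
    intro t
    simp [pM]
  have him : ∀ t : ℤ × ℤ × ℤ, (pM E M₀ t).im = M₀.im + E * t.2.1 := by
    intro t
    simp [pM]
  have hle : ((Hit E k M₀ s₀ L V z₀).filter (fun t => k.norm ∣ (pM E M₀ t).norm)).card ≤ (S₁ ∪ S₂).card := by
    apply Finset.card_le_card_of_injOn (fun t => (t.1, t.2.1))
    · intro t ht
      rw [mem_coe, mem_filter, Hit, mem_filter, mem_product, mem_product] at ht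
      obtain ⟨⟨⟨hx, hy, hz⟩, hcg⟩, hd⟩ := ht
      rw [mem_coe, mem_union, hS₁, hS₂, mem_filter, mem_filter, mem_product]
      have := CTR_split hp hr hd
      rw [hdv, hdv, hre, him] at this
      rcases this with h | h
      · exact Or.inl ⟨⟨hx, hy⟩, h⟩
      · exact Or.inr ⟨⟨hx, hy⟩, h⟩
    · intro t ht t' ht' he
      rw [mem_coe, mem_filter, Hit, mem_filter, mem_product, mem_product] at ht ht'
      obtain ⟨⟨⟨hx, hy, hz⟩, hcg⟩, hd⟩ := ht
      obtain ⟨⟨⟨hx', hy', hz'⟩, hcg'⟩, hd'⟩ := ht'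
      have he' : (t.1, t.2.1) = (t'.1, t'.2.1) := he
      obtain ⟨e1, e2⟩ := Prod.mk.inj he'
      have eM : pM E M₀ t = pM E M₀ t' := by
        unfold pM
        rw [e1, e2]
      rw [← eM] at hcg'
      have h3 := CTR_dvd hp hc hcg hcg'
      have h4 : k.norm ^ 3 ∣ (E : ℤ) * (t.2.2 - t'.2.2) := by
        have e : ps E s₀ t - ps E s₀ t' = (E : ℤ) * (t.2.2 - t'.2.2) := by
          unfold ps
          ring
        rwa [e] at h3
      have h5 : k.norm ^ 3 ∣ t.2.2 - t'.2.2 := (hE.pow_left).dvd_of_dvd_mul_left h4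
      have h6 : t.2.2 - t'.2.2 = 0 := by
        apply Int.eq_zero_of_abs_lt_dvd ((abs_dvd _ _).mpr h5)
        rw [mem_Ico] at hz hz'
        have hb : |t.2.2 - t'.2.2| < V := by
          rw [abs_lt]
          constructor <;> omega
        have hV' : (V : ℤ) ≤ |k.norm ^ 3| := by
          rw [Int.abs_eq_natAbs, Int.natAbs_pow]
          exact_mod_cast hV
        exact lt_of_lt_of_le hb hV'
      have e3 : t.2.2 = t'.2.2 := by omega
      exact Prod.ext e1 (Prod.ext e2 e3)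
  have hu : (S₁ ∪ S₂).card ≤ S₁.card + S₂.card := Finset.card_union_le _ _
  calc (((Hit E k M₀ s₀ L V z₀).filter (fun t => k.norm ∣ (pM E M₀ t).norm)).card : ℝ)
      ≤ ((S₁.card + S₂.card : ℕ) : ℝ) := by exact_mod_cast hle.trans hu
    _ = (S₁.card : ℝ) + S₂.card := by push_cast; rfl
    _ ≤ L * ((L : ℝ) / k.norm.natAbs + 1) + L * ((L : ℝ) / k.norm.natAbs + 1) := add_le_add b₁ b₂
    _ = _ := by ring

end Pool.Agent.RF
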